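import Pool.Agent.Run7.h336.FW.Stm2
import Pool.Agent.Y23.G.Fw3

/-! # The finite form of Weil's criterion: clusters of zeros (CLU2) -/

set_option autoImplicit false
set_option maxHeartbeats 2000000

open Complex Filter Topology Set MeasureTheory Metric
open scoped ComplexConjugate

namespace Pool.Agent.Y23.G.FW

lemma one_le_PL {l : List ℂ} {w : ℂ} (h : ∀ z ∈ l, 1 ≤ ‖w - z‖) : 1 ≤ ‖PL l w‖ := by
  induction l with
  | nil => rw [PL_nil, norm_one]
  | cons z l ih =>
    rw [PL_cons, norm_mul]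
    exact one_le_mul_of_one_le_of_one_le (h z (by simp)) (ih fun z' h' => h z' (by simp [h']))

theorem t_CLU2 [L : LFun] : S_CLU2 := by
  intro r0 hr0
  obtain ⟨K, hK, hcl⟩ := cluster (L := L)
  set q : ℝ := min r0 1 / 16 with hq
  have hq0 : 0 < q := by
    have : 0 < min r0 1 := lt_min hr0 one_pos
    positivity
  have hq1 : q ≤ 1 := by
    have : min r0 1 ≤ 1 := min_le_right _ _
    rw [hq]; linarith
  set Q : ℝ := -Real.log q with hQ
  have hQ0 : 0 ≤ Q := by
    rw [hQ]; linarith [Real.log_nonpos hq0.le hq1]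
  refine ⟨K + K * Q + K * ((K + 5) * (K + 1)) + K, by
    have h1 : 0 ≤ K * Q := by positivity
    have h2 : 0 ≤ K * ((K + 5) * (K + 1)) := by positivity
    linarith, fun w0 hX0 hre => ?_⟩
  have hw1 : |w0.re| ≤ 1 := by
    have h1 : (1 / 2 + w0) ∈ (zd (L := L)).Zs := hX0
    have h2 := (zd (L := L)).strip _ h1
    simpa using h2
  have hre1 : w0.re ≤ 1 := (abs_le.1 hw1).2
  have hLg := one_le_Lg w0.im
  set l0 : ℝ := Lg w0.im with hl0
  set B : ℝ := K * l0 + Real.log 128 with hB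
  have hlog128 : Real.log 128 ≤ 5 := by
    rw [Real.log_le_iff_le_exp (by norm_num)]
    have h1 := Real.exp_one_gt_d9
    calc (128 : ℝ) ≤ 2.7182818283 ^ 5 := by norm_num
      _ ≤ Real.exp 1 ^ 5 := pow_le_pow_left₀ (by norm_num) h1.le 5
      _ = Real.exp 5 := by rw [← Real.exp_nat_mul]; norm_num
  have hlog0 : 0 ≤ Real.log 128 := Real.log_nonneg (by norm_num)
  have hB0 : 0 ≤ B := by
    rw [hB]; positivity
  set δ : ℝ := min (min r0 (w0.re / 2)) (1 / 8) with hδ
  have hδ0 : 0 < δ := lt_min (lt_min hr0 (by linarith)) (by norm_num)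
  have hδ8 : δ ≤ 1 / 8 := min_le_right _ _
  have hδr : δ ≤ r0 := (min_le_left _ _).trans (min_le_left _ _)
  have hδw : δ ≤ w0.re / 2 := (min_le_left _ _).trans (min_le_right _ _)
  have hδq : q * w0.re ≤ δ := by
    have h1 : min r0 1 ≤ r0 := min_le_left _ _
    have h2 : min r0 1 ≤ 1 := min_le_right _ _
    have h3 : 0 < min r0 1 := lt_min hr0 one_pos
    rw [hδ, hq]
    refine le_min (le_min ?_ ?_) ?_ <;> nlinarith
  obtain ⟨l, G, δ', hδ'0, hBδ, hδ'low, _, _, hl, hGd, hXG, hGlow, hGup⟩ := hcl w0 δ B hw1 hX0 hδ0 hδ8 hB0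
  have hexpB : Real.exp B = Real.exp (K * l0) * 128 := by
    rw [hB, Real.exp_add, Real.exp_log (by norm_num)]
  have hexpK : 1 ≤ Real.exp (K * l0) := Real.one_le_exp (by positivity)
  have hexpB' : 128 ≤ Real.exp B := by rw [hexpB]; linarith
  have hδ'δ : δ' ≤ δ := by nlinarith
  have hGp : 0 < ‖G w0‖ := by
    refine lt_of_lt_of_le ?_ hGlow
    have : 0 < ‖L.X (ctr w0.im)‖ := norm_pos_iff.2 (ctr_ne _)
    positivity
  refine ⟨G, δ', hGd, hδ'0, hδ'δ.trans hδr, hδ'δ.trans hδw, fun w hw hwr => ?_, fun w hw => ?_, fun w hw => ?_, ?_⟩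
  · have h1 := hXG w
    rw [hw] at h1
    refine (mul_eq_zero.1 h1.symm).resolve_left (PL_ne fun h => ?_)
    exact absurd (hl w h).2 (not_lt.2 hwr.le)
  · set R' : ℝ := Real.exp B * δ' / 2 with hR'
    have hR'0 : 0 < R' := by positivity
    have hR'δ : δ' < R' := by
      rw [hR']; nlinarith
    set E : ℝ := Real.exp (K * l0) with hE
    have hmaps : MapsTo G (ball w0 R') (ball (G w0) (3 * E * ‖G w0‖)) := by
      intro u hu
      rw [mem_ball, dist_eq_norm] at hu ⊢
      have h1 := hGup u hu.le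
      have h2 : ‖G u - G w0‖ ≤ ‖G u‖ + ‖G w0‖ := norm_sub_le _ _
      have h3 : ‖G w0‖ ≤ E * ‖G w0‖ := le_mul_of_one_le_left hGp.le hexpK
      have h4 : 0 < E * ‖G w0‖ := by positivity
      linarith
    have h1 := Complex.dist_le_div_mul_dist_of_mapsTo_ball (f := G) (c := w0) (z := w) (R₁ := R') hGd.differentiableOn
      (hmaps.mono_right ball_subset_closedBall) (by
      rw [mem_ball, dist_eq_norm]; linarith)
    rw [dist_eq_norm, dist_eq_norm] at h1
    refine h1.trans ?_
    have h2 : 3 * E * ‖G w0‖ / R' * ‖w - w0‖ ≤ 3 * E * ‖G w0‖ / R' * δ' :=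
      mul_le_mul_of_nonneg_left hw (by positivity)
    refine h2.trans ?_
    have h3 : R' = E * 64 * δ' := by
      rw [hR', hexpB]; ring
    rw [h3]
    have h4 : 3 * E * ‖G w0‖ / (E * 64 * δ') * δ' = 3 / 64 * ‖G w0‖ := by
      have : E ≠ 0 := by positivity
      field_simp
    rw [h4]
    linarith
  · have h1 : 1 ≤ ‖PL l w‖ := one_le_PL fun z hz => by
      have h2 := (hl z hz).2
      have h3 : ‖w - w0‖ ≤ ‖w - z‖ + ‖z - w0‖ := by
        calc ‖w - w0‖ = ‖(w - z) + (z - w0)‖ := by congr 1; ring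
          _ ≤ _ := norm_add_le _ _
      linarith
    rw [hXG w, norm_mul]
    exact le_mul_of_one_le_left (norm_nonneg _) h1
  · refine le_trans ?_ hGlow
    rw [mul_assoc, ← Real.exp_add]
    refine mul_le_mul_of_nonneg_left (Real.exp_le_exp.2 ?_) (norm_nonneg _)
    have hlogw : 0 ≤ Real.log (1 / w0.re) := Real.log_nonneg (by
      rw [le_div_iff₀ hre]; linarith)
    have hlogδ' : Real.log q - Real.log (1 / w0.re) - B * (K * l0 + 1) ≤ Real.log δ' := by
      have h1 : q * w0.re * Real.exp (-(B * (K * l0 + 1))) ≤ δ' :=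
        le_trans (mul_le_mul_of_nonneg_right hδq (Real.exp_pos _).le) hδ'low
      have h2 := Real.log_le_log (by positivity) h1
      rw [Real.log_mul (by positivity) (by positivity), Real.log_mul hq0.ne' hre.ne', Real.log_exp] at h2
      rw [Real.log_div one_ne_zero hre.ne', Real.log_one]
      linarith
    have hBl : B ≤ (K + 5) * l0 := by
      rw [hB]; nlinarith
    have hKl : K * l0 + 1 ≤ (K + 1) * l0 := by nlinarith
    have h5 : B * (K * l0 + 1) ≤ (K + 5) * (K + 1) * l0 ^ 2 := by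
      calc B * (K * l0 + 1) ≤ ((K + 5) * l0) * ((K + 1) * l0) :=
            mul_le_mul hBl hKl (by positivity) (by positivity)
        _ = _ := by ring
    have h6 : K * l0 * (Real.log q - Real.log (1 / w0.re) - B * (K * l0 + 1)) ≤ K * l0 * Real.log δ' :=
      mul_le_mul_of_nonneg_left hlogδ' (by positivity)
    have h7 : K * l0 * (B * (K * l0 + 1)) ≤ K * l0 * ((K + 5) * (K + 1) * l0 ^ 2) :=
      mul_le_mul_of_nonneg_left h5 (by positivity)
    have hl3 : l0 ≤ l0 ^ 3 := by
      have : 1 ≤ l0 ^ 2 := by nlinarith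
      nlinarith
    have h8 : K * l0 ≤ K * l0 ^ 3 := mul_le_mul_of_nonneg_left hl3 (by positivity)
    have h9 : K * Q * l0 ≤ K * Q * l0 ^ 3 := mul_le_mul_of_nonneg_left hl3 (by positivity)
    have h10 : 0 ≤ (K * Q + K * ((K + 5) * (K + 1)) + K) * (l0 * Real.log (1 / w0.re)) := by positivity
    have h11 : 0 ≤ K * l0 ^ 3 := by positivity
    have e1 : Real.log q = -Q := by rw [hQ, neg_neg]
    rw [e1] at h6
    nlinarith

end Pool.Agent.Y23.G.FW
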